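import Mathlib
import Pool.Agent.N108.ZZ.HH
import Pool.Agent.TH167.SH.Fam

set_option autoImplicit false

/-!
# Very general points: all classes with `∑_{m_i ≥ 2} m_i ≤ 3 d + 5` have the expected dimension

Any number `r ≥ 4` of very general points, `m_1 ≥ … ≥ m_r ≥ 0`, `d ≥ m_1 + m_2 + m_3`.
-/

namespace Pool.Agent.Results.MP_6e81d8_ag.CanonicalDegreeFive

open MvPolynomial Pool.Agent.TH167 Pool.Agent.TH167.SHDefs

theorem result (r : ℕ) : ∃ Z : ℕ → MvPolynomial (Fin (r + 4) × Fin 2) ℂ, (∀ n, Z n ≠ 0) ∧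
    ∀ P : Fin (r + 4) → Fin 2 → ℂ,
      (∀ n, MvPolynomial.eval (fun ij : Fin (r + 4) × Fin 2 => P ij.1 ij.2) (Z n) ≠ 0) →
      ∀ (d : ℕ) (m : Fin (r + 4) → ℕ), Antitone m → m 0 + m 1 + m 2 ≤ d →
        ∑ i, (if 2 ≤ m i then m i else 0) ≤ 3 * d + 5 →
        dimL P d m = max (virtdim d m) (-1) := by
  obtain ⟨Z, hZ, h⟩ := SH.exists_fam (Fin (r + 4) × Fin 2)
  refine ⟨Z, hZ, fun P hP d m hm hd hb => ?_⟩
  have hred : SH.Reduced d m := by
    intro i j k hij hik hjk
    have hf : Antitone fun n : ℕ => if h : n < r + 4 then m ⟨n, h⟩ else 0 := by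
      intro a b hab
      show (if h : b < r + 4 then m ⟨b, h⟩ else 0) ≤ (if h : a < r + 4 then m ⟨a, h⟩ else 0)
      by_cases hb : b < r + 4
      · rw [dif_pos hb, dif_pos (by omega)]
        exact hm (Fin.mk_le_mk.2 hab)
      · rw [dif_neg hb]
        exact Nat.zero_le _
    have h1 := Pool.Agent.N108.ZZ.three_le hf (a := (i : ℕ)) (b := (j : ℕ)) (c := (k : ℕ))
      (fun h => hij (Fin.ext h)) (fun h => hik (Fin.ext h)) (fun h => hjk (Fin.ext h))
    simp only [dif_pos i.2, dif_pos j.2, dif_pos k.2, dif_pos (show 0 < r + 4 by omega),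
      dif_pos (show 1 < r + 4 by omega), dif_pos (show 2 < r + 4 by omega)] at h1
    exact h1.trans hd
  have h1 := Pool.Agent.N108.ZZ.std_dim1 ((h _).1 hP) hred hb
  rw [SH.dimL_eq, SH.virtdim_eq, h1]
  rcases le_total 0 (SH.chi d m) with h2 | h2
  · rw [max_eq_right h2, max_eq_left (by linarith)]
  · rw [max_eq_left h2, max_eq_right (by linarith)]
    ring

end Pool.Agent.Results.MP_6e81d8_ag.CanonicalDegreeFive
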