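import Mathlib
import Pool.Agent.N388.EFW.Near
import Pool.Agent.N388.EF.TEST2

set_option autoImplicit false

/-!
# Eleven very general points: all multiplicities, the critical degrees divisible by three

There is a sequence of nonzero polynomials such that for every 11 points of the complex projective
plane at which none of them vanishes, EVERY class `d H - m 0 E 0 - ... - m 10 E 10` has the expected
dimension if, with `W = ∑ m i`, `g = ⌊d / √11⌋`, `s = ∑ max (m i - g) 0` and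
`e = (3 + √11) / 2 * (d - √11 g) - s`,
* `√11 (2 d + 3) < 11 + 2 W` and `3` does not divide `d`, or `e < 0`, or `g ≥ 20` and
  `e < (3 √11 - 9) / 2` and `(10 + 3 √11) e + s < 10`, or
* `√11 d < W`, or
* `11 + 2 ∑ max (m i) b ≤ √11 (2 d + 3)` for some `b` with `m i ≤ b + 1` for all `i`.
-/

namespace Pool.Agent.Results.MP_6e81d8_ag.ElevenVeryGeneralPoints

/-- The vector space of the forms of degree `d` in three variables over `ℂ` with multiplicity at
least `m i` at the point `(P i 0 : P i 1 : 1)` for every `i`. -/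
noncomputable def forms {n : ℕ} (P : Fin n → Fin 2 → ℂ) (d : ℕ) (m : Fin n → ℕ) :
    Submodule ℂ (MvPolynomial (Fin 3) ℂ) :=
  MvPolynomial.homogeneousSubmodule (Fin 3) ℂ d ⊓
    Submodule.restrictScalars ℂ
      (⨅ i : Fin n,
        (Ideal.span
          ({MvPolynomial.X 0 - MvPolynomial.C (P i 0) * MvPolynomial.X 2,
            MvPolynomial.X 1 - MvPolynomial.C (P i 1) * MvPolynomial.X 2} :
            Set (MvPolynomial (Fin 3) ℂ))) ^ (m i))

/-- The projective dimension of the linear system `|d H - m 0 E 0 - ⋯|`. -/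
noncomputable def dim {n : ℕ} (P : Fin n → Fin 2 → ℂ) (d : ℕ) (m : Fin n → ℕ) : ℤ :=
  (Module.finrank ℂ ↥(forms P d m) : ℤ) - 1

/-- The virtual dimension. -/
def vdim {n : ℕ} (d : ℕ) (m : Fin n → ℕ) : ℤ :=
  ((d + 2).choose 2 : ℤ) - 1 - ∑ i, ((m i + 1).choose 2 : ℤ)

/-- The expected dimension. -/
def edim {n : ℕ} (d : ℕ) (m : Fin n → ℕ) : ℤ := max (vdim d m) (-1)

theorem result :
    ∃ Φ : ℕ → MvPolynomial (Fin 11 × Fin 2) ℂ, (∀ k, Φ k ≠ 0) ∧
      ∀ P : Fin 11 → Fin 2 → ℂ,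
        (∀ k, MvPolynomial.eval (fun ij : Fin 11 × Fin 2 => P ij.1 ij.2) (Φ k) ≠ 0) →
        ∀ (m : Fin 11 → ℕ) (d g s : ℕ) (e : ℝ), g = ⌊(d : ℝ) / √11⌋₊ → s = ∑ i, (m i - g) →
          e = (3 + √11) / 2 * (d - √11 * g) - s →
          ((√11 * (2 * d + 3) < 11 + 2 * ∑ i, (m i : ℝ) ∧
              (¬ 3 ∣ d ∨ e < 0 ∨
                (20 ≤ g ∧ e < (3 * √11 - 9) / 2 ∧ (10 + 3 * √11) * e + s < 10))) ∨
            √11 * d < ∑ i, (m i : ℝ) ∨
            ∃ b : ℕ, (∀ i, m i ≤ b + 1) ∧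
              11 + 2 * ∑ i, ((max (m i) b : ℕ) : ℝ) ≤ √11 * (2 * d + 3)) →
          dim P d m = edim d m := by
  choose F hF hF' using fun w : Fin 11 → ℕ => N388.EFW.expDim_arb11 N388.EF.t_TEST2 w
  obtain ⟨enum, henum⟩ := exists_surjective_nat (Fin 11 → ℕ)
  refine ⟨fun k => (F (enum k)).map (algebraMap ℚ ℂ), fun k => H932R3.map_ne_zero_of (hF _), ?_⟩
  intro P hP m d g s e hg hs he hd
  obtain ⟨k, rfl⟩ := henum m
  have hPk := hP k
  rw [MvPolynomial.eval_map] at hPk
  have hdft : N388.EFW.dft (enum k) d = e := by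
    unfold N388.EFW.dft
    rw [he, ← hg, ← hs]
  have h1 := hF' (enum k) P hPk d (by
    rcases hd with ⟨h1, h2⟩ | hd | hd
    · refine Or.inl ⟨h1, ?_⟩
      rcases h2 with h2 | h2 | ⟨h2, h3, h4⟩
      · exact Or.inl h2
      · refine Or.inr (Or.inl ?_)
        rw [hdft]
        exact h2
      · refine Or.inr (Or.inr ?_)
        rw [hdft, ← hg, ← hs]
        exact ⟨by omega, h3, h4⟩
    · exact Or.inr (Or.inl hd)
    · exact Or.inr (Or.inr hd))
  unfold H932R3.ExpDim at h1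
  have h2 : ∑ i, ((enum k i + 1).choose 2 : ℤ) = ((∑ i, Nat.choose (enum k i + 1) 2 : ℕ) : ℤ) := by
    push_cast
    rfl
  unfold dim edim vdim forms
  rw [h1, h2]
  omega

end Pool.Agent.Results.MP_6e81d8_ag.ElevenVeryGeneralPoints
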