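import Mathlib
import Pool.Agent.N141.SG.Deg3

set_option autoImplicit false

/-!
# Ten points: the SHGH conjecture for all near-uniform classes in almost half of the degrees

There is a `K₀` such that in every interval `(M, M + K]` of length `K ≥ K₀` at least `48.6` per cent of
the degrees `d` have the following property: for EVERY `m ≥ 1` all classes `(d; w 1, ..., w 10)` with
`w i ∈ {m, m + 1}` have `dim (D) = edim (D)`, for ten general points.
-/

namespace Pool.Agent.Results.MP_6e81d8_ag.TenPointsHalfOfTheDegrees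

open MvPolynomial

/-- Forms of degree `d` vanishing to order at least `w i` at the points `(P i 0 : P i 1 : 1)`. -/
noncomputable def forms {n : ℕ} (P : Fin n → Fin 2 → ℂ) (d : ℕ) (w : Fin n → ℕ) :
    Submodule ℂ (MvPolynomial (Fin 3) ℂ) :=
  homogeneousSubmodule (Fin 3) ℂ d ⊓
    Submodule.restrictScalars ℂ
      (⨅ i : Fin n, (Ideal.span {X 0 - C (P i 0) * X 2, X 1 - C (P i 1) * X 2} :
        Ideal (MvPolynomial (Fin 3) ℂ)) ^ (w i))

/-- The dimension of the linear system of the plane curves of degree `d` with multiplicities at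
least `w i` at the points `P i`. -/
noncomputable def dimension {n : ℕ} (P : Fin n → Fin 2 → ℂ) (d : ℕ) (w : Fin n → ℕ) : ℤ :=
  (Module.finrank ℂ ↥(forms P d w) : ℤ) - 1

/-- The virtual dimension. -/
def vdim {n : ℕ} (d : ℕ) (w : Fin n → ℕ) : ℤ :=
  ((d + 2).choose 2 : ℤ) - 1 - ∑ i, ((w i + 1).choose 2 : ℤ)

/-- For points `P` of a nonempty open set (the complement of a hypersurface `F = 0` of the space of
all `P`) the dimension is the expected one. -/
def Expected {n : ℕ} (w : Fin n → ℕ) (d : ℕ) : Prop :=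
  ∃ F : MvPolynomial (Fin n × Fin 2) ℂ, F ≠ 0 ∧
    ∀ P : Fin n → Fin 2 → ℂ, eval (fun ij : Fin n × Fin 2 => P ij.1 ij.2) F ≠ 0 →
      dimension P d w = max (vdim d w) (-1)

/-- The degree `d` is good: all vectors of ten positive multiplicities which take at most two
consecutive values `m`, `m + 1` have the expected dimension in the degree `d`. -/
def Good (d : ℕ) : Prop :=
  ∀ m : ℕ, 0 < m → ∀ w : Fin 10 → ℕ, (∀ i, w i = m ∨ w i = m + 1) → Expected w d

theorem expected_of {n : ℕ} {w : Fin n → ℕ} {d : ℕ}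
    (h : ∃ F : MvPolynomial (Fin n × Fin 2) ℚ, F ≠ 0 ∧ ∀ P : Fin n → Fin 2 → ℂ,
      MvPolynomial.aeval (fun ij : Fin n × Fin 2 => P ij.1 ij.2) F ≠ 0 →
        Pool.Agent.H932R3.ExpDim ℂ w P d) : Expected w d := by
  obtain ⟨F, hF, hF'⟩ := h
  refine ⟨F.map (algebraMap ℚ ℂ), Pool.Agent.H932R3.map_ne_zero_of hF, fun P hP => ?_⟩
  rw [MvPolynomial.eval_map] at hP
  have h1 := hF' P hP
  unfold Pool.Agent.H932R3.ExpDim at h1
  unfold dimension vdim forms
  rw [h1]
  have e : ∑ i, ((w i + 1).choose 2 : ℤ) = ((∑ i, (w i + 1).choose 2 : ℕ) : ℤ) := by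
    push_cast
    rfl
  rw [e]
  omega

/-- counting in subsets -/
theorem ncard_le {s : Finset ℕ} {p q : ℕ → Prop} (h : ∀ n ∈ s, p n → q n) :
    ({n : ℕ | n ∈ s ∧ p n}.ncard : ℝ) ≤ ({n : ℕ | n ∈ s ∧ q n}.ncard : ℝ) := by
  have h1 : {n : ℕ | n ∈ s ∧ p n} ⊆ {n : ℕ | n ∈ s ∧ q n} := fun n hn => ⟨hn.1, h n hn.1 hn.2⟩
  exact_mod_cast Set.ncard_le_ncard h1 ((Finset.finite_toSet s).subset fun n hn => hn.1)

/-- **Ten points: all near-uniform classes in almost half of the degrees.** -/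
theorem result : ∃ K₀ : ℕ, ∀ K : ℕ, K₀ ≤ K → ∀ M : ℕ,
    486 / 1000 * (K : ℝ) ≤ ({d : ℕ | d ∈ Finset.Ioc M (M + K) ∧ Good d}.ncard : ℝ) := by
  obtain ⟨K₀, h⟩ := Pool.Agent.N141.SG.ten_deg
  exact ⟨K₀, fun K hK M => (h K hK M).trans (ncard_le fun d _ hd m hm w hw =>
    expected_of (hd m hm w hw))⟩

end Pool.Agent.Results.MP_6e81d8_ag.TenPointsHalfOfTheDegrees
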